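import Pool.Agent.H97.UC.Stack

/-!
# Countable chains in which a fixed multiple of every small initial interval is small

For chains write `A ≤ B` if `A` embeds in `B`, and `A < B` if `A ≤ B` and not `B ≤ A`. The question is whether a
countable chain `A` is unsecable when `X + X < A` for every initial interval `X < A`. We replace the two copies of
`X` by `W` copies, where `W` is any countable chain, and determine all `W` for which the answer is positive: those
that are not scattered. On the other hand all countable ordinals together suffice.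
-/

namespace Pool.Agent.Results.MP_5790d7_co.Multiplicities

open Set Pool.Agent.H97.UC

/-- `A ≤ B`: the chain `A` embeds in the chain `B` -/
def Emb (A B : Type) [LinearOrder A] [LinearOrder B] : Prop := Nonempty (A ↪o B)

/-- `A < B`: the chain `A` embeds in the chain `B`, but not conversely -/
def SEmb (A B : Type) [LinearOrder A] [LinearOrder B] : Prop := Emb A B ∧ ¬ Emb B A

/-- `A` is unsecable: `A ≤ B` or `A ≤ C` for every decomposition `A = B + C` -/
def Unsecable (A : Type) [LinearOrder A] : Prop :=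
  ∀ B : Set A, IsLowerSet B → Emb A B ∨ Emb A (Bᶜ : Set A)

/-- `X + X < A` for every initial interval `X` of `A` with `X < A` -/
def Doubling (A : Type) [LinearOrder A] : Prop :=
  ∀ X : Set A, IsLowerSet X → SEmb X A → SEmb (X ⊕ₗ X) A

/-- the sum of `W` copies of `X` (one for every element of `W`, in the order of `W`) is `< A` for every initial
interval `X` of `A` with `X < A` -/
def Multiple (W A : Type) [LinearOrder W] [LinearOrder A] : Prop :=
  ∀ X : Set A, IsLowerSet X → SEmb X A → SEmb (W ×ₗ X) A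

instance lexCt {α β : Type} [Countable α] [Countable β] : Countable (α ×ₗ β) :=
  inferInstanceAs (Countable (α × β))

instance dualCt {α : Type} [Countable α] : Countable αᵒᵈ :=
  (OrderDual.ofDual (α := α)).injective.countable

/-- the nonscattered case -/
theorem unsecable_of_rat {W A : Type} [LinearOrder W] [LinearOrder A] [Countable A]
    (hW : Nonempty (ℚ ↪o W)) (hA : Multiple W A) : Unsecable A := by
  intro B hB
  rcases B.eq_empty_or_nonempty with rfl | ⟨b, hb⟩
  · exact Or.inr ⟨OrderEmbedding.ofStrictMono (fun x => ⟨x, fun h => h⟩) fun _ _ h => h⟩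
  by_contra hc
  rw [not_or] at hc
  have h1 := hA B hB ⟨⟨OrderEmbedding.subtype _⟩, hc.1⟩
  obtain ⟨f⟩ := hW
  obtain ⟨g⟩ := Order.embedding_from_countable_to_dense A ℚ
  refine h1.2 ⟨OrderEmbedding.ofStrictMono (fun x => toLex (f (g x), (⟨b, hb⟩ : B))) fun x y h => ?_⟩
  rw [Prod.Lex.lt_iff]
  exact Or.inl (f.lt_iff_lt.2 (g.lt_iff_lt.2 h))

/-- the scattered case -/
theorem exists_secable {W : Type} [LinearOrder W] [Countable W] (hW : ¬ Nonempty (ℚ ↪o W)) :
    ∃ (A : Type) (_ : LinearOrder A), Countable A ∧ Multiple W A ∧ ¬ Unsecable A := by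
  have hb : ¬ Big Wᵒᵈ := fun h => by
    obtain ⟨f⟩ := rat_of_big h
    exact hW ⟨OrderEmbedding.ofStrictMono (fun x => OrderDual.ofDual (f (-x))) fun x y h => by
      have h1 : f (-y) < f (-x) := f.lt_iff_lt.2 (neg_lt_neg h)
      exact h1⟩
  obtain ⟨N, iN, hwf, hct, hN⟩ : ∃ (N : Type) (_ : LinearOrder N) (_ : WellFoundedLT N) (_ : Countable N),
      ¬ Nonempty (N ↪o Wᵒᵈ) := by
    simpa only [Big, not_forall, exists_prop] using hb
  have hNW : ¬ Nonempty (Nᵒᵈ ↪o W) := fun ⟨f⟩ => hN ⟨OrderEmbedding.ofStrictMono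
    (fun x => OrderDual.toDual (f (OrderDual.toDual x))) fun x y h => by
      have h1 : f (OrderDual.toDual y) < f (OrderDual.toDual x) := f.lt_iff_lt.2 h
      exact h1⟩
  have hne : Nonempty N := by
    by_contra hc
    rw [not_nonempty_iff] at hc
    exact hN ⟨OrderEmbedding.ofStrictMono (fun x => hc.elim x) fun x => hc.elim x⟩
  obtain ⟨n₀⟩ := id hne
  let D := ℕᵒᵈ ×ₗ (W ⊕ₗ Nᵒᵈ)
  -- the copy of `W` in the chain
  let inW : W → D := fun w => toLex (OrderDual.toDual 0, toLex (.inl w))
  have inW_lt : ∀ x y : W, x < y → inW x < inW y := fun x y h => by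
    rw [Prod.Lex.lt_iff]
    exact Or.inr ⟨rfl, Sum.Lex.inl_lt_inl_iff.2 h⟩
  let d₀ : D := inN 0 n₀
  have hNA : ∀ {Z : Type} [LinearOrder Z], Nonempty (WithBot D ↪o Z) → Nonempty (Nᵒᵈ ↪o Z) :=
    fun {Z} _ ⟨f⟩ => N_of (W := W) (N := N) (OrderEmbedding.ofStrictMono (fun x : D => f (x : WithBot D))
      fun x y h => f.lt_iff_lt.2 (WithBot.coe_lt_coe.2 h))
  have hD : Countable D := lexCt
  have hct' : Countable (WithBot D) := inferInstanceAs (Countable (Option D))
  refine ⟨WithBot D, inferInstance, hct', fun X hX hXA => ?_, fun hU => ?_⟩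
  · -- an initial interval below `A` has at most one point
    have hbot : ∀ x ∈ X, x = ⊥ := fun x hx => by
      by_contra hc
      obtain ⟨d, rfl⟩ := WithBot.ne_bot_iff_exists.1 hc
      refine hXA.2 ⟨OrderEmbedding.ofStrictMono (fun a : WithBot D =>
        (⟨a.map (sh (co d)), hX ?_ hx⟩ : X)) fun a b hab => ?_⟩
      · cases a with
        | bot => exact bot_le
        | coe a => exact WithBot.coe_le_coe.2 (sh_lt d a).le
      · show WithBot.map (sh (co d)) a < WithBot.map (sh (co d)) b
        exact (sh_mono (P := W ⊕ₗ Nᵒᵈ) (co d)).withBot_map hab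
    have hXW : Nonempty ((W ×ₗ X) ↪o W) := ⟨OrderEmbedding.ofStrictMono (fun p => (ofLex p).1) fun p q h => by
      rw [Prod.Lex.lt_iff] at h
      rcases h with h | h
      · exact h
      · exact absurd (show (ofLex p).2 = (ofLex q).2 from Subtype.ext
          ((hbot _ (ofLex p).2.2).trans (hbot _ (ofLex q).2.2).symm)) h.2.ne⟩
    refine ⟨?_, fun h => ?_⟩
    · obtain ⟨f⟩ := hXW
      exact ⟨OrderEmbedding.ofStrictMono (fun p => ((inW (f p) : D) : WithBot D)) fun p q h =>
        WithBot.coe_lt_coe.2 (inW_lt _ _ (f.lt_iff_lt.2 h))⟩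
    · obtain ⟨f⟩ := hXW
      obtain ⟨g⟩ := h
      exact hNW (hNA ⟨g.trans f⟩)
  · rcases hU {⊥} (fun a b hab ha => by
      rw [mem_singleton_iff] at ha ⊢
      exact le_bot_iff.1 (ha ▸ hab)) with ⟨⟨f⟩⟩ | ⟨⟨f⟩⟩
    · have h1 : f ⊥ < f (d₀ : WithBot D) := f.lt_iff_lt.2 (WithBot.bot_lt_coe d₀)
      have h2 : f ⊥ = f (d₀ : WithBot D) := Subtype.ext ((f ⊥).2.trans (f (d₀ : WithBot D)).2.symm)
      exact absurd h2 h1.ne
    · have hne' : ∀ a : WithBot D, (f a).1 ≠ ⊥ := fun a => (f a).2
      choose g hg using fun a => WithBot.ne_bot_iff_exists.1 (hne' a)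
      have hlt : ∀ a b : WithBot D, a < b → g a < g b := fun a b h => by
        have h1 : (f a).1 < (f b).1 := f.lt_iff_lt.2 h
        rw [← hg a, ← hg b] at h1
        exact WithBot.coe_lt_coe.1 h1
      exact not_down hNW (g ⊥) (fun x => g (x : WithBot D)) (fun x y h => hlt _ _ (WithBot.coe_lt_coe.2 h))
        fun x => hlt _ _ (WithBot.bot_lt_coe x)

/-- all countable ordinals together suffice -/
theorem unsecable_of_all {A : Type} [LinearOrder A] [Countable A]
    (h : ∀ X : Set A, IsLowerSet X → SEmb X A →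
      ∀ (W : Type) [LinearOrder W] [WellFoundedLT W] [Countable W], Emb (W ×ₗ X) A) :
    Unsecable A := by
  intro B hB
  rcases B.eq_empty_or_nonempty with rfl | ⟨b, hb⟩
  · exact Or.inr ⟨OrderEmbedding.ofStrictMono (fun x => ⟨x, fun h => h⟩) fun _ _ h => h⟩
  by_contra hc
  rw [not_or] at hc
  have hbig : Big A := fun W _ _ _ => by
    obtain ⟨f⟩ := h B hB ⟨⟨OrderEmbedding.subtype _⟩, hc.1⟩ W
    refine ⟨OrderEmbedding.ofStrictMono (fun w => f (toLex (w, (⟨b, hb⟩ : B)))) fun x y hxy => ?_⟩
    refine f.lt_iff_lt.2 ?_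
    rw [Prod.Lex.lt_iff]
    exact Or.inl hxy
  obtain ⟨f⟩ := rat_of_big hbig
  obtain ⟨g⟩ := Order.embedding_from_countable_to_dense A ℚ
  by_cases hq : ∃ q : ℚ, f q ∈ Bᶜ
  · obtain ⟨q, hq⟩ := hq
    obtain ⟨e⟩ := Order.embedding_from_countable_to_dense A (Ioi q)
    refine hc.2 ⟨OrderEmbedding.ofStrictMono (fun a => (⟨f (e a).1, fun hm => ?_⟩ : (Bᶜ : Set A)))
      fun x y hxy => ?_⟩
    · exact hq (hB (f.lt_iff_lt.2 (e a).2).le hm)
    · exact f.lt_iff_lt.2 (show (e x).1 < (e y).1 from e.lt_iff_lt.2 hxy)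
  · push Not at hq
    refine hc.1 ⟨OrderEmbedding.ofStrictMono (fun a => (⟨f (g a), by simpa using hq (g a)⟩ : B))
      fun x y hxy => ?_⟩
    exact f.lt_iff_lt.2 (g.lt_iff_lt.2 hxy)

theorem doubling_of_bool {A : Type} [LinearOrder A] (h : Multiple Bool A) : Doubling A := by
  intro X hX hXA
  obtain ⟨⟨f⟩, h2⟩ := h X hX hXA
  have h3 : Nonempty ((X ⊕ₗ X) ↪o (Bool ×ₗ X)) := by
    refine ⟨OrderEmbedding.ofStrictMono (fun a => Sum.elim (fun x => toLex (false, x))
      (fun x => toLex (true, x)) (ofLex a)) fun a b hab => ?_⟩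
    induction a using Lex.rec with
    | _ a =>
    induction b using Lex.rec with
    | _ b =>
    rw [Prod.Lex.lt_iff]
    rcases a with a | a <;> rcases b with b | b
    · exact Or.inr ⟨rfl, Sum.Lex.inl_lt_inl_iff.1 hab⟩
    · exact Or.inl Bool.false_lt_true
    · exact absurd hab Sum.Lex.not_inr_lt_inl
    · exact Or.inr ⟨rfl, Sum.Lex.inr_lt_inr_iff.1 hab⟩
  obtain ⟨g⟩ := h3
  exact ⟨⟨g.trans f⟩, fun ⟨k⟩ => h2 ⟨k.trans g⟩⟩

/-- 1. There is a countable chain `A` which is not unsecable although `X + X < A` for every initial interval `X < A`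
(the question has a negative answer).
2. Let `W` be a countable chain. Every countable chain `A` with `X·W < A` for all initial intervals `X < A` is
unsecable if and only if `W` is not scattered, that is, `ℚ` embeds in `W`.
3. A countable chain `A` such that `X·W ≤ A` for all initial intervals `X < A` and all countable well ordered chains
`W` is unsecable. -/
theorem result :
    (∃ (A : Type) (_ : LinearOrder A), Countable A ∧ Doubling A ∧ ¬ Unsecable A) ∧
    (∀ (W : Type) [LinearOrder W] [Countable W],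
      (∀ (A : Type) [LinearOrder A] [Countable A], Multiple W A → Unsecable A) ↔
        Nonempty (ℚ ↪o W)) ∧
    (∀ (A : Type) [LinearOrder A] [Countable A],
      (∀ X : Set A, IsLowerSet X → SEmb X A →
        ∀ (W : Type) [LinearOrder W] [WellFoundedLT W] [Countable W], Emb (W ×ₗ X) A) →
      Unsecable A) := by
  refine ⟨?_, fun W _ _ => ⟨fun h => ?_, fun h A _ _ hA => unsecable_of_rat h hA⟩,
    fun A _ _ h => unsecable_of_all h⟩
  · have hB : ¬ Nonempty (ℚ ↪o Bool) := fun ⟨f⟩ => by
      have := Finite.of_injective f f.injective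
      exact not_finite ℚ
    obtain ⟨A, i, h1, h2, h3⟩ := exists_secable hB
    exact ⟨A, i, h1, doubling_of_bool h2, h3⟩
  · by_contra hc
    obtain ⟨A, i, h1, h2, h3⟩ := exists_secable hc
    exact h3 (h A h2)

end Pool.Agent.Results.MP_5790d7_co.Multiplicities
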